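import Mathlib

open Set Filter Topology MeasureTheory
open scoped ENNReal

namespace Pool.Agent.Results.MP_5b7a98_an.NoExample

/-- `A` is mu-compact: preimages of compact subsets of `A` under the barycentre map, defined on the
Borel probability measures on `A` with the weak topology, are compact. -/
def MuCompact {E : Type} [NormedAddCommGroup E] [NormedSpace ℝ E] [MeasurableSpace E]
    [OpensMeasurableSpace E] (A : Set E) : Prop :=
  ∀ K ⊆ A, IsCompact K → IsCompact {μ : ProbabilityMeasure A | ∫ x, (x : E) ∂(μ : Measure A) ∈ K}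

/-- every mu-compact closed bounded convex subset of `E` (with the Borel sigma-algebra) is compact -/
def OnlyCompact (E : Type) [NormedAddCommGroup E] [NormedSpace ℝ E] : Prop :=
  ∀ [MeasurableSpace E] [BorelSpace E] (A : Set E), IsClosed A → Bornology.IsBounded A →
    Convex ℝ A → MuCompact A → IsCompact A

lemma scalar {p : ℝ} (hp : 1 < p) {ε : ℝ} (hε : 0 < ε) : ∃ C, 0 ≤ C ∧ ∀ a b : ℝ,
    |a - b| ^ p + C * |1 / 2 * (a + b)| ^ p ≤ (ε + C / 2) * (|a| ^ p + |b| ^ p) := by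
  have p0 : 0 < p := by linarith
  have g0 : ∀ a b : ℝ, |1 / 2 * (a + b)| ≤ 1 / 2 * |a| + 1 / 2 * |b| := fun a b => by
    rw [abs_mul, abs_of_pos one_half_pos]; linarith [abs_add_le a b]
  have g1 : ∀ a b : ℝ, |1 / 2 * (a + b)| ^ p ≤ 1 / 2 * |a| ^ p + 1 / 2 * |b| ^ p := fun a b =>
    (Real.rpow_le_rpow (abs_nonneg _) (g0 a b) p0.le).trans ((convexOn_rpow hp.le).2
      (abs_nonneg a) (abs_nonneg b) one_half_pos.le one_half_pos.le (add_halves 1))
  have g2 : ∀ a b : ℝ, a ≠ b → |1 / 2 * (a + b)| ^ p < 1 / 2 * |a| ^ p + 1 / 2 * |b| ^ p :=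
    fun a b h => by
      by_cases e : |a| = |b|
      · have e2 := (abs_eq_abs.1 e).resolve_left h
        have : b ≠ 0 := by rintro rfl; exact h (by simpa using e2)
        rw [e, e2, neg_add_cancel, mul_zero, abs_zero, Real.zero_rpow p0.ne']
        positivity
      · exact (Real.rpow_le_rpow (abs_nonneg _) (g0 a b) p0.le).trans_lt ((strictConvexOn_rpow hp).2
          (abs_nonneg a) (abs_nonneg b) e one_half_pos one_half_pos (add_halves 1))
  have ct : Continuous fun t : ℝ => |t| ^ p := continuous_abs.rpow_const fun _ => .inr p0.le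
  obtain ⟨m, m0, hm⟩ := ((isCompact_sphere (0 : ℝ × ℝ) 1).inter_right
    (isClosed_le continuous_const (ct.comp (continuous_fst.sub continuous_snd)) :
      IsClosed {z : ℝ × ℝ | ε ≤ |z.1 - z.2| ^ p})).exists_forall_le' (a := 0)
    (f := fun z => 1 / 2 * |z.1| ^ p + 1 / 2 * |z.2| ^ p - |1 / 2 * (z.1 + z.2)| ^ p)
    ((((ct.comp continuous_fst).const_mul _).add ((ct.comp continuous_snd).const_mul _)).sub
      (ct.comp ((continuous_fst.add continuous_snd).const_mul _))).continuousOn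
    fun z hz => sub_pos.2 (g2 _ _ fun h => by
      have := hz.2.out
      rw [h, sub_self, abs_zero, Real.zero_rpow p0.ne'] at this
      exact this.not_gt hε)
  have C0 : 0 ≤ 2 ^ p / m := by positivity
  have k : ∀ z : ℝ × ℝ, ‖z‖ = 1 → |z.1 - z.2| ^ p + 2 ^ p / m * |1 / 2 * (z.1 + z.2)| ^ p ≤
      (ε + 2 ^ p / m / 2) * (|z.1| ^ p + |z.2| ^ p) := fun z hz => by
    have n1 := Real.rpow_nonneg (abs_nonneg z.1) p
    have n2 := Real.rpow_nonneg (abs_nonneg z.2) p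
    rcases le_total ε (|z.1 - z.2| ^ p) with h | h
    · have h1 := mul_le_mul_of_nonneg_left (hm z ⟨mem_sphere_zero_iff_norm.2 hz, h⟩) C0
      have h2 : |z.1 - z.2| ^ p ≤ 2 ^ p := Real.rpow_le_rpow (abs_nonneg _) (by
        have a : |z.1| ≤ 1 := hz ▸ norm_fst_le z
        have b : |z.2| ≤ 1 := hz ▸ norm_snd_le z
        linarith [abs_sub z.1 z.2]) p0.le
      rw [div_mul_cancel₀ _ m0.ne'] at h1
      nlinarith [mul_nonneg hε.le (add_nonneg n1 n2)]
    · have h1 : 1 ≤ |z.1| ^ p + |z.2| ^ p := by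
        rcases max_choice ‖z.1‖ ‖z.2‖ with e | e
        · rw [show |z.1| = 1 from e.symm.trans hz, Real.one_rpow]; linarith
        · rw [show |z.2| = 1 from e.symm.trans hz, Real.one_rpow]; linarith
      nlinarith [mul_le_mul_of_nonneg_left (g1 z.1 z.2) C0, mul_le_mul_of_nonneg_left h1 hε.le]
  refine ⟨_, C0, fun a b => ?_⟩
  rcases eq_or_ne ((a, b) : ℝ × ℝ) 0 with h | h
  · obtain ⟨rfl, rfl⟩ := Prod.mk_eq_zero.1 h
    simp [p0.ne']
  obtain ⟨t, ht⟩ : ∃ t, t = ‖((a, b) : ℝ × ℝ)‖⁻¹ := ⟨_, rfl⟩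
  have t0 : 0 < t := ht ▸ inv_pos.2 (norm_pos_iff.2 h)
  have := k (t • (a, b)) (ht ▸ norm_smul_inv_norm h)
  have e : ∀ s, |t * s| ^ p = t ^ p * |s| ^ p := fun s => by
    rw [abs_mul, abs_of_pos t0, Real.mul_rpow t0.le (abs_nonneg _)]
  simp only [Prod.smul_mk, smul_eq_mul, ← mul_sub, ← mul_add, mul_left_comm _ t, e] at this
  refine le_of_mul_le_mul_left ?_ (Real.rpow_pos_of_pos t0 p)
  linarith

/-- a quantitative form of uniform convexity -/
def UC (E : Type) [NormedAddCommGroup E] [NormedSpace ℝ E] (p : ℝ) : Prop :=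
  ∀ ε > 0, ∃ C, 0 ≤ C ∧ ∀ x y : E,
    ‖x - y‖ ^ p + C * ‖(1 / 2 : ℝ) • (x + y)‖ ^ p ≤ (ε + C / 2) * (‖x‖ ^ p + ‖y‖ ^ p)

lemma nested {E : Type} [NormedAddCommGroup E] [NormedSpace ℝ E] [CompleteSpace E] {p : ℝ}
    (hp : 0 < p) (h : UC E p) (C : ℕ → Set E) (h1 : Antitone C) (h2 : ∀ n, Convex ℝ (C n))
    (h3 : ∀ n, (C n).Nonempty) {R : ℝ} (h4 : ∀ n, ∀ x ∈ C n, ‖x‖ ≤ R) :
    ∃ x, ∀ n, x ∈ closure (C n) := by
  obtain ⟨d, hd⟩ : ∃ d : ℕ → ℝ, ∀ n, IsGLB ((fun x => ‖x‖ ^ p) '' C n) (d n) :=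
    ⟨_, fun n => isGLB_csInf ((h3 n).image _) ⟨0, by rintro _ ⟨x, -, rfl⟩; positivity⟩⟩
  have b : ∀ n, ∀ x ∈ C n, ‖x‖ ^ p ≤ R ^ p := fun n x hx =>
    Real.rpow_le_rpow (norm_nonneg _) (h4 n x hx) hp.le
  have dm : Monotone d := fun m n hmn => (hd n).2 fun _ ⟨x, hx, e⟩ => (hd m).1 ⟨x, h1 hmn hx, e⟩
  have db : BddAbove (range d) := ⟨R ^ p, by
    rintro _ ⟨n, rfl⟩
    exact ((hd n).1 ⟨_, (h3 n).some_mem, rfl⟩).trans (b n _ (h3 n).some_mem)⟩
  choose z z1 z2 using fun n : ℕ => show ∃ x ∈ C n, ‖x‖ ^ p < d n + 1 / (n + 1 : ℝ) from by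
    obtain ⟨_, ⟨x, hx, rfl⟩, -, e⟩ := (hd n).exists_between (lt_add_of_pos_right _ (by positivity :
      (0:ℝ) < 1 / (n + 1)))
    exact ⟨x, hx, e⟩
  have R0 : 0 ≤ R ^ p := (Real.rpow_nonneg (norm_nonneg _) p).trans (b 0 _ (z1 0))
  have cz : CauchySeq z := Metric.cauchySeq_iff'.2 fun ε hε => by
    have e0 := Real.rpow_pos_of_pos hε p
    obtain ⟨c, c0, hc⟩ := h (ε ^ p / (4 * (R ^ p + 1))) (by positivity)
    have t : Tendsto (fun n : ℕ => c * (⨆ k, d k + 0) + c * (1 / (n + 1 : ℝ)) - c * d n) atTop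
        (𝓝 (c * (⨆ k, d k + 0) + c * 0 - c * ⨆ k, d k)) :=
      ((tendsto_one_div_add_atTop_nhds_zero_nat.const_mul c).const_add _).sub
        ((tendsto_atTop_ciSup dm db).const_mul c)
    simp only [add_zero, mul_zero, sub_self] at t
    obtain ⟨N, hN⟩ := (t.eventually (gt_mem_nhds (half_pos e0))).exists
    refine ⟨N, fun n hn => ?_⟩
    rw [dist_eq_norm, ← Real.rpow_lt_rpow_iff (norm_nonneg _) hε.le hp]
    have a1 := (hd N).1 ⟨_, h2 N (h1 hn (z1 n)) (z1 N) one_half_pos.le one_half_pos.le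
      (add_halves 1), rfl⟩
    have a2 : 1 / (n + 1 : ℝ) ≤ 1 / (N + 1 : ℝ) := Nat.one_div_le_one_div hn
    have a3 : ε ^ p / (4 * (R ^ p + 1)) * (‖z n‖ ^ p + ‖z N‖ ^ p) ≤ ε ^ p / 2 := by
      rw [div_mul_eq_mul_div, div_le_div_iff₀ (by positivity) two_pos]
      nlinarith [b n _ (z1 n), b N _ (z1 N)]
    have a4 : ‖z n‖ ^ p + ‖z N‖ ^ p ≤ 2 * ((⨆ k, d k) + 1 / (N + 1 : ℝ)) := by
      linarith [z2 n, z2 N, le_ciSup db n, le_ciSup db N]
    rw [← smul_add] at a1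
    nlinarith [hc (z n) (z N), mul_le_mul_of_nonneg_left a1 c0, mul_le_mul_of_nonneg_left a4 c0]
  obtain ⟨x, hx⟩ := cauchySeq_tendsto_of_complete cz
  exact ⟨x, fun n => mem_closure_of_tendsto hx ((eventually_ge_atTop n).mono fun k hk =>
    h1 hk (z1 k))⟩

lemma main {E : Type} [NormedAddCommGroup E] [NormedSpace ℝ E] [CompleteSpace E]
    [MeasurableSpace E] [BorelSpace E] {p : ℝ} (hp : 0 < p) (h : UC E p) (A : Set E)
    (h1 : IsClosed A) (h2 : Bornology.IsBounded A) (h3 : Convex ℝ A) (h4 : MuCompact A) :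
    IsCompact A := by
  refine isCompact_iff_isSeqCompact.2 fun x hx => ?_
  obtain ⟨R, hR⟩ := h2.exists_norm_le
  have sub : ∀ n, convexHull ℝ (x '' Ici n) ⊆ A := fun n =>
    convexHull_min (by rintro _ ⟨k, -, rfl⟩; exact hx k) h3
  obtain ⟨a, ha⟩ := nested hp h (fun n => convexHull ℝ (x '' Ici n))
    (fun m n hmn => convexHull_mono (image_mono (Ici_subset_Ici.2 hmn)))
    (fun _ => convex_convexHull _ _) (fun n => ⟨x n, subset_convexHull _ _ ⟨n, self_mem_Ici, rfl⟩⟩)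
    fun n y hy => hR y (sub n hy)
  choose y y1 y2 using fun n : ℕ => Metric.mem_closure_iff.1 (ha n) (1 / (n + 1 : ℝ)) (by positivity)
  have ty : Tendsto y atTop (𝓝 a) := tendsto_iff_dist_tendsto_zero.2 (squeeze_zero
    (fun _ => dist_nonneg) (fun n => (dist_comm _ _).trans_le (y2 n).le)
    tendsto_one_div_add_atTop_nhds_zero_nat)
  have cl : ∀ n, IsClosed {w : A | w.1 ∈ closure (x '' Ici n)} := fun n =>
    isClosed_closure.preimage continuous_subtype_val
  choose ν ν1 ν2 ν3 using fun n => convexHull_min (𝕜 := ℝ) (s := x '' Ici n)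
    (t := {b | ∃ ν : ProbabilityMeasure A, Integrable (fun w : A => w.1) ν ∧
      (ν : Measure A) {w : A | w.1 ∈ closure (x '' Ici n)} = 1 ∧ ∫ w, w.1 ∂(ν : Measure A) = b})
    (by
      rintro _ ⟨k, hk, rfl⟩
      exact ⟨⟨Measure.dirac ⟨x k, hx k⟩, inferInstance⟩, integrable_dirac enorm_lt_top,
        Measure.dirac_apply_of_mem (subset_closure ⟨k, hk, rfl⟩), integral_dirac _ _⟩) (by
      rintro _ ⟨μ, a1, a2, rfl⟩ _ ⟨ν, b1, b2, rfl⟩ s t hs ht e
      have e' : ENNReal.ofReal s + ENNReal.ofReal t = 1 := by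
        rw [← ENNReal.ofReal_add hs ht, e, ENNReal.ofReal_one]
      have i1 := a1.smul_measure (c := ENNReal.ofReal s) ENNReal.ofReal_ne_top
      have i2 := b1.smul_measure (c := ENNReal.ofReal t) ENNReal.ofReal_ne_top
      refine ⟨⟨ENNReal.ofReal s • (μ : Measure A) + ENNReal.ofReal t • (ν : Measure A),
        ⟨by simp [e']⟩⟩, i1.add_measure i2, by simp [a2, b2, e'], ?_⟩
      refine (integral_add_measure i1 i2).trans ?_
      rw [integral_smul_measure, integral_smul_measure, ENNReal.toReal_ofReal hs,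
        ENNReal.toReal_ofReal ht]) (y1 n)
  obtain ⟨μ, -, hμ⟩ := (h4 _ (insert_subset (h1.closure_subset_iff.2 (sub 0) (ha 0)) (by
    rintro _ ⟨n, rfl⟩; exact sub n (y1 n))) ty.isCompact_insert_range).exists_mapClusterPt
    (f := atTop) (u := ν) (le_principal_iff.2 (mem_map.2 (Eventually.of_forall fun n =>
      .inr ⟨n, (ν3 n).symm⟩)))
  obtain ⟨U, U1, U2⟩ := mapClusterPt_iff_ultrafilter.1 hμ
  have : ∀ n, ∀ᵐ w ∂(μ : Measure A), w.1 ∈ closure (x '' Ici n) := fun n => by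
    refine (mem_ae_iff_prob_eq_one (cl n).measurableSet).2 (le_antisymm prob_le_one (le_trans
      (le_limsup_of_frequently_le (Eventually.frequently ?_))
      (ProbabilityMeasure.limsup_measure_closed_le_of_tendsto U2 (cl n))))
    refine ((eventually_ge_atTop n).filter_mono U1).mono fun k hk => (ν2 k).ge.trans ?_
    exact measure_mono fun w hw => closure_mono (image_mono (f := x) (Ici_subset_Ici.2 hk)) hw
  obtain ⟨w, hw⟩ := (ae_all_iff.2 this).exists
  exact ⟨w, w.2, (mapClusterPt_atTop_iff_forall_mem_closure.2 hw).tendsto_subseq⟩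

/-- For `1 < p < ∞`, every mu-compact closed bounded convex subset of real `ℓ_p` or of real
`L_p[0,1]` is compact. -/
theorem result (p : ℝ≥0∞) [Fact (1 ≤ p)] (h1 : 1 < p) (h2 : p ≠ ∞) :
    OnlyCompact (lp (fun _ : ℕ => ℝ) p) ∧
      OnlyCompact (Lp ℝ p (volume.restrict (Icc (0:ℝ) 1))) := by
  have q1 : 1 < p.toReal := by
    rw [← ENNReal.toReal_one]; exact ENNReal.toReal_strict_mono h2 h1
  have q0 : 0 < p.toReal := by linarith
  have p0 : p ≠ 0 := (zero_lt_one.trans h1).ne'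
  refine ⟨main q0 fun ε hε => (scalar q1 hε).imp fun C hC => ⟨hC.1, fun x y => ?_⟩,
    main q0 fun ε hε => (scalar q1 hε).imp fun C hC => ⟨hC.1, fun x y => ?_⟩⟩
  · exact hasSum_le (fun n => hC.2 (x n) (y n)) ((lp.hasSum_norm q0 (x - y)).add
      ((lp.hasSum_norm q0 ((1 / 2 : ℝ) • (x + y))).mul_left C))
      (((lp.hasSum_norm q0 x).add (lp.hasSum_norm q0 y)).mul_left _)
  · have n : ∀ f : Lp ℝ p (volume.restrict (Icc (0:ℝ) 1)), ‖f‖ ^ p.toReal =
        ∫ t, ‖f t‖ ^ p.toReal ∂(volume.restrict (Icc (0:ℝ) 1)) := fun f => by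
      rw [Lp.norm_def, (Lp.memLp f).eLpNorm_eq_integral_rpow_norm p0 h2,
        ENNReal.toReal_ofReal (by positivity), Real.rpow_inv_rpow (by positivity) q0.ne']
    have i := fun f : Lp ℝ p (volume.restrict (Icc (0:ℝ) 1)) =>
      (Lp.memLp f).integrable_norm_rpow p0 h2
    rw [n, n, n, n, ← integral_add (i x) (i y), ← integral_const_mul, ← integral_const_mul,
      ← integral_add (i _) ((i _).const_mul C)]
    refine integral_mono_ae ((i _).add ((i _).const_mul C)) (((i x).add (i y)).const_mul _) ?_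
    filter_upwards [Lp.coeFn_sub x y, Lp.coeFn_smul (1 / 2 : ℝ) (x + y), Lp.coeFn_add x y]
      with t a b c
    rw [a, b, Pi.smul_apply, c]
    exact hC.2 (x t) (y t)

end Pool.Agent.Results.MP_5b7a98_an.NoExample
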